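import Pool.Agent.Q166.Enn.Dom

/-!
# The Enneper type competitor
-/

namespace Pool.Agent.Q166.Enn

open Complex Metric

noncomputable section

/-- Conformal harmonic maps of the unit disc into `Ω`. -/
def CH (Ω : Set E3) (f : ℂ → E3) : Prop :=
  ContDiffOn ℝ 2 f (Metric.ball (0 : ℂ) 1) ∧
    (∀ z ∈ Metric.ball (0 : ℂ) 1, f z ∈ Ω) ∧
    (∀ z ∈ Metric.ball (0 : ℂ) 1,
      ‖fderiv ℝ f z (1 : ℂ)‖ = ‖fderiv ℝ f z Complex.I‖ ∧
      inner ℝ (fderiv ℝ f z (1 : ℂ)) (fderiv ℝ f z Complex.I) = 0) ∧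
    (∀ z ∈ Metric.ball (0 : ℂ) 1,
      fderiv ℝ (fun w => fderiv ℝ f w (1 : ℂ)) z (1 : ℂ) +
        fderiv ℝ (fun w => fderiv ℝ f w Complex.I) z Complex.I = 0)

/-- The real part of a vector of holomorphic functions. -/
def reMap (F : Fin 3 → ℂ → ℂ) (z : ℂ) : E3 := WithLp.toLp 2 (fun j => (F j z).re)

theorem reMap_apply (F : Fin 3 → ℂ → ℂ) (z : ℂ) (j : Fin 3) : reMap F z j = (F j z).re := rfl

theorem contDiff_reMap (F : Fin 3 → ℂ → ℂ) (hF : ∀ j, ContDiff ℝ 2 (F j)) :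
    ContDiff ℝ 2 (reMap F) := by
  rw [contDiff_euclidean]
  intro j
  exact Complex.reCLM.contDiff.comp (hF j)

theorem fderiv_coord {f : ℂ → E3} {z : ℂ} (hf : DifferentiableAt ℝ f z) (w : ℂ) (j : Fin 3) :
    (fderiv ℝ f z w) j = fderiv ℝ (fun z => f z j) z w := by
  have h : HasFDerivAt (fun z => f z j) ((EuclideanSpace.proj j : E3 →L[ℝ] ℝ).comp (fderiv ℝ f z)) z :=
    (EuclideanSpace.proj j : E3 →L[ℝ] ℝ).hasFDerivAt.comp z hf.hasFDerivAt
  rw [h.fderiv]
  rfl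

theorem fderiv_re {F : ℂ → ℂ} {F' z : ℂ} (hF : HasDerivAt F F' z) (w : ℂ) :
    fderiv ℝ (fun z => (F z).re) z w = (F' * w).re := by
  have h2 : HasFDerivAt (fun z => (F z).re)
      (Complex.reCLM.comp ((ContinuousLinearMap.toSpanSingleton ℂ F').restrictScalars ℝ)) z :=
    Complex.reCLM.hasFDerivAt.comp z (hF.hasFDerivAt.restrictScalars ℝ)
  rw [h2.fderiv]
  simp [mul_comm]

theorem fderiv_reMap (F F' : Fin 3 → ℂ → ℂ) (hF : ∀ j, ContDiff ℝ 2 (F j))
    (hF' : ∀ j z, HasDerivAt (F j) (F' j z) z) (z w : ℂ) :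
    fderiv ℝ (reMap F) z w = reMap (fun j z => F' j z * w) z := by
  have hd : DifferentiableAt ℝ (reMap F) z :=
    (contDiff_reMap F hF).differentiable (by norm_num) z
  ext j
  rw [fderiv_coord hd]
  simp only [reMap_apply]
  exact fderiv_re (hF' j z) w

/-- A vector of polynomials whose derivatives have vanishing sum of squares gives a conformal
harmonic map. -/
theorem ch_reMap (Ω : Set E3) (F F' F'' : Fin 3 → ℂ → ℂ) (hF : ∀ j, ContDiff ℝ 2 (F j))
    (hF1 : ∀ j, ContDiff ℝ 2 (F' j))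
    (hF' : ∀ j z, HasDerivAt (F j) (F' j z) z) (hF'' : ∀ j z, HasDerivAt (F' j) (F'' j z) z)
    (hsq : ∀ z, F' 0 z ^ 2 + F' 1 z ^ 2 + F' 2 z ^ 2 = 0)
    (hΩ : ∀ z ∈ Metric.ball (0 : ℂ) 1, reMap F z ∈ Ω) : CH Ω (reMap F) := by
  refine ⟨(contDiff_reMap F hF).contDiffOn, hΩ, ?_, ?_⟩
  · intro z _
    rw [fderiv_reMap F F' hF hF', fderiv_reMap F F' hF hF']
    have h := hsq z
    have hre := congrArg Complex.re h
    have him := congrArg Complex.im h
    simp only [pow_two, Complex.add_re, Complex.mul_re, Complex.add_im, Complex.mul_im,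
      Complex.zero_re, Complex.zero_im] at hre him
    constructor
    · have h1 : ‖reMap (fun j z => F' j z * 1) z‖ ^ 2 = ‖reMap (fun j z => F' j z * I) z‖ ^ 2 := by
        rw [EuclideanSpace.norm_sq_eq, EuclideanSpace.norm_sq_eq, Fin.sum_univ_three,
          Fin.sum_univ_three]
        simp only [Real.norm_eq_abs, sq_abs, reMap_apply, mul_one, Complex.mul_re, Complex.I_re,
          Complex.I_im, mul_zero, zero_sub]
        linarith
      exact (pow_left_inj₀ (norm_nonneg _) (norm_nonneg _) two_ne_zero).mp h1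
    · rw [PiLp.inner_apply, Fin.sum_univ_three]
      simp only [reMap_apply, mul_one, Complex.mul_re, Complex.I_re,
          Complex.I_im, mul_zero, zero_sub]
      simp
      linarith
  · intro z _
    have h1 : (fun w => fderiv ℝ (reMap F) w (1 : ℂ)) = reMap (fun j z => F' j z * 1) := by
      funext w
      exact fderiv_reMap F F' hF hF' w 1
    have h2 : (fun w => fderiv ℝ (reMap F) w I) = reMap (fun j z => F' j z * I) := by
      funext w
      exact fderiv_reMap F F' hF hF' w I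
    rw [h1, h2, fderiv_reMap (fun j z => F' j z * 1) (fun j z => F'' j z * 1)
      (fun j => (hF1 j).mul contDiff_const) (fun j z => (hF'' j z).mul_const 1),
      fderiv_reMap (fun j z => F' j z * I) (fun j z => F'' j z * I)
      (fun j => (hF1 j).mul contDiff_const) (fun j z => (hF'' j z).mul_const I)]
    ext j
    simp only [PiLp.add_apply, reMap_apply, PiLp.zero_apply]
    simp

/-- The constant in the third coordinate. -/
def cc : ℝ := Real.sqrt (567 / 1875)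

theorem cc_sq : cc ^ 2 = 567 / 1875 := Real.sq_sqrt (by norm_num)

/-- The holomorphic functions whose real parts are the coordinates of the competitor. -/
def FF : Fin 3 → ℂ → ℂ :=
  ![fun z => (27 / 25) * z - (7 / 75) * z ^ 3, fun z => -I * ((27 / 25) * z + (7 / 75) * z ^ 3),
    fun z => cc * z ^ 2]

/-- Their derivatives. -/
def FF' : Fin 3 → ℂ → ℂ :=
  ![fun z => (27 / 25) - (7 / 25) * z ^ 2, fun z => -I * ((27 / 25) + (7 / 25) * z ^ 2),
    fun z => 2 * cc * z]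

/-- Their second derivatives. -/
def FF'' : Fin 3 → ℂ → ℂ :=
  ![fun z => - (14 / 25) * z, fun z => -I * ((14 / 25) * z),
    fun _ => 2 * cc]

theorem contDiff_FF (j : Fin 3) : ContDiff ℝ 2 (FF j) := by
  fin_cases j <;> simp [FF] <;> fun_prop

theorem contDiff_FF' (j : Fin 3) : ContDiff ℝ 2 (FF' j) := by
  fin_cases j <;> simp [FF'] <;> fun_prop

theorem hasDerivAt_FF (j : Fin 3) (z : ℂ) : HasDerivAt (FF j) (FF' j z) z := by
  fin_cases j
  · have h := ((hasDerivAt_id z).const_mul (27 / 25 : ℂ)).sub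
      ((hasDerivAt_pow 3 z).const_mul (7 / 75 : ℂ))
    refine h.congr_deriv ?_
    simp [FF']
    ring
  · have h := (((hasDerivAt_id z).const_mul (27 / 25 : ℂ)).add
      ((hasDerivAt_pow 3 z).const_mul (7 / 75 : ℂ))).const_mul (-I)
    refine h.congr_deriv ?_
    simp [FF']
    ring
  · have h := (hasDerivAt_pow 2 z).const_mul (cc : ℂ)
    refine h.congr_deriv ?_
    simp [FF']
    ring

theorem hasDerivAt_FF' (j : Fin 3) (z : ℂ) : HasDerivAt (FF' j) (FF'' j z) z := by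
  fin_cases j
  · have h := (hasDerivAt_const z (27 / 25 : ℂ)).sub
      ((hasDerivAt_pow 2 z).const_mul (7 / 25 : ℂ))
    refine h.congr_deriv ?_
    simp [FF'']
    ring
  · have h := ((hasDerivAt_const z (27 / 25 : ℂ)).add
      ((hasDerivAt_pow 2 z).const_mul (7 / 25 : ℂ))).const_mul (-I)
    refine h.congr_deriv ?_
    simp [FF'']
    ring
  · have h := (hasDerivAt_id z).const_mul (2 * cc : ℂ)
    refine h.congr_deriv ?_
    simp [FF'']

theorem sq_FF' (z : ℂ) : FF' 0 z ^ 2 + FF' 1 z ^ 2 + FF' 2 z ^ 2 = 0 := by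
  have hc : (cc : ℂ) ^ 2 = 567 / 1875 := by
    rw [← Complex.ofReal_pow, cc_sq]
    norm_num
  simp only [FF', Matrix.cons_val_zero, Matrix.cons_val_one, Matrix.cons_val]
  have hI : I ^ 2 = -1 := Complex.I_sq
  linear_combination (4 * z ^ 2) * hc + ((27 / 25) + (7 / 25) * z ^ 2) ^ 2 * hI

/-- The competitor. -/
def comp : ℂ → E3 := reMap FF

theorem comp_zero (z : ℂ) :
    comp z 0 = z.re * (27 / 25 - 7 / 75 * z.re ^ 2 + 7 / 25 * z.im ^ 2) := by
  have h : FF 0 z = (((27 / 25 : ℝ) : ℂ)) * z - ((7 / 75 : ℝ) : ℂ) * z ^ 3 := by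
    simp [FF]
  unfold comp
  rw [reMap_apply, h, Complex.sub_re, Complex.re_ofReal_mul, Complex.re_ofReal_mul]
  simp only [pow_succ, pow_zero, one_mul, Complex.mul_re, Complex.mul_im]
  ring

theorem comp_one (z : ℂ) :
    comp z 1 = z.im * (27 / 25 - 7 / 75 * z.im ^ 2 + 7 / 25 * z.re ^ 2) := by
  have h : FF 1 z = -I * ((((27 / 25 : ℝ) : ℂ)) * z + ((7 / 75 : ℝ) : ℂ) * z ^ 3) := by
    simp [FF]
  unfold comp
  rw [reMap_apply, h]
  have h2 : ∀ w : ℂ, (-I * w).re = w.im := by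
    intro w; simp
  rw [h2, Complex.add_im, Complex.im_ofReal_mul, Complex.im_ofReal_mul]
  simp only [pow_succ, pow_zero, one_mul, Complex.mul_re, Complex.mul_im]
  ring

theorem comp_two (z : ℂ) : comp z 2 = cc * (z.re ^ 2 - z.im ^ 2) := by
  have h : FF 2 z = (cc : ℂ) * z ^ 2 := by
    simp [FF]
  unfold comp
  rw [reMap_apply, h, Complex.re_ofReal_mul]
  simp only [pow_succ, pow_zero, one_mul, Complex.mul_re]

/-- The one-variable function majorising the squares of the coordinates. -/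
def psi (a : ℝ) : ℝ := a * (34 / 25 - 28 / 75 * a) ^ 2

theorem psi_mono {b c : ℝ} (_hb : 0 ≤ b) (hbc : b ≤ c) (hc : c ≤ 1) : psi b ≤ psi c := by
  have h : psi c - psi b = (c - b) * ((34 / 25) ^ 2 - 2 * (34 / 25) * (28 / 75) * (c + b)
      + (28 / 75) ^ 2 * (c ^ 2 + c * b + b ^ 2)) := by
    unfold psi; ring
  have h2 : 0 ≤ (34 / 25 : ℝ) ^ 2 - 2 * (34 / 25) * (28 / 75) * (c + b)
      + (28 / 75) ^ 2 * (c ^ 2 + c * b + b ^ 2) := by
    nlinarith [mul_nonneg (sub_nonneg.mpr hc) (sub_nonneg.mpr hc),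
      mul_nonneg (sub_nonneg.mpr hc) (sub_nonneg.mpr (hbc.trans hc)),
      mul_nonneg (sub_nonneg.mpr (hbc.trans hc)) (sub_nonneg.mpr (hbc.trans hc))]
  have h3 := mul_nonneg (sub_nonneg.mpr hbc) h2
  linarith

theorem psi_nonneg {b : ℝ} (hb : 0 ≤ b) : 0 ≤ psi b := by
  unfold psi; positivity

theorem psi_sum (a : ℝ) (ha : 0 ≤ a) (ha1 : a ≤ 1) :
    psi a ^ 2 + psi (1 - a) ^ 2 ≤ 96 / 100 := by
  set q := a * (1 - a) with hq
  have hq0 : 0 ≤ q := mul_nonneg ha (by linarith)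
  have hq1 : q ≤ 1 / 4 := by nlinarith [sq_nonneg (a - 1 / 2)]
  have h : psi a ^ 2 + psi (1 - a) ^ 2 = (34 / 25) ^ 4 * (1 - 2 * q)
      - 4 * (34 / 25) ^ 3 * (28 / 75) * (1 - 3 * q)
      + 6 * (34 / 25) ^ 2 * (28 / 75) ^ 2 * (1 - 4 * q + 2 * q ^ 2)
      - 4 * (34 / 25) * (28 / 75) ^ 3 * (1 - 5 * q + 5 * q ^ 2)
      + (28 / 75) ^ 4 * (1 - 6 * q + 9 * q ^ 2 - 2 * q ^ 3) := by
    rw [hq]
    unfold psi
    ring
  rw [h]
  nlinarith [mul_nonneg hq0 (sub_nonneg.mpr hq1), pow_nonneg hq0 3]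

theorem psi_le (a : ℝ) (ha : 0 ≤ a) (ha1 : a ≤ 1) : psi a ≤ 1 := by
  have := psi_mono ha ha1 le_rfl
  unfold psi at *
  norm_num at *
  nlinarith

/-- The competitor maps the disc into the domain. -/
theorem comp_mem (z : ℂ) (hz : z ∈ Metric.ball (0 : ℂ) 1) : comp z ∈ Om := by
  refine ⟨trivial, ?_⟩
  have hz1 : z.re ^ 2 + z.im ^ 2 < 1 := by
    have h := mem_ball_zero_iff.mp hz
    have h2 : ‖z‖ ^ 2 < 1 := by nlinarith [norm_nonneg z]
    rw [← Complex.normSq_eq_norm_sq, Complex.normSq_apply] at h2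
    nlinarith
  unfold rho
  rw [comp_zero, comp_one, comp_two]
  set a := z.re ^ 2 with ha
  set b := z.im ^ 2 with hb
  have ha0 : 0 ≤ a := sq_nonneg _
  have hb0 : 0 ≤ b := sq_nonneg _
  have hX : (z.re * (27 / 25 - 7 / 75 * a + 7 / 25 * b)) ^ 2 ≤ psi a := by
    rw [mul_pow, ← ha]
    unfold psi
    apply mul_le_mul_of_nonneg_left _ ha0
    apply pow_le_pow_left₀ (by nlinarith)
    nlinarith
  have hY : (z.im * (27 / 25 - 7 / 75 * b + 7 / 25 * a)) ^ 2 ≤ psi (1 - a) := by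
    refine le_trans ?_ (psi_mono hb0 (by linarith) (by linarith) : psi b ≤ psi (1 - a))
    rw [mul_pow, ← hb]
    unfold psi
    apply mul_le_mul_of_nonneg_left _ hb0
    apply pow_le_pow_left₀ (by nlinarith)
    nlinarith
  have hX2 : (z.re * (27 / 25 - 7 / 75 * a + 7 / 25 * b)) ^ 4 ≤ psi a ^ 2 := by
    have := pow_le_pow_left₀ (sq_nonneg _) hX 2
    calc _ = ((z.re * (27 / 25 - 7 / 75 * a + 7 / 25 * b)) ^ 2) ^ 2 := by ring
      _ ≤ _ := this
  have hY2 : (z.im * (27 / 25 - 7 / 75 * b + 7 / 25 * a)) ^ 4 ≤ psi (1 - a) ^ 2 := by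
    have := pow_le_pow_left₀ (sq_nonneg _) hY 2
    calc _ = ((z.im * (27 / 25 - 7 / 75 * b + 7 / 25 * a)) ^ 2) ^ 2 := by ring
      _ ≤ _ := this
  have hZ : (cc * (a - b)) ^ 2 ≤ 1 := by
    rw [mul_pow, cc_sq]
    have : (a - b) ^ 2 ≤ 1 := by nlinarith
    nlinarith
  have h1 := psi_sum a ha0 (by linarith)
  have h2 := psi_le a ha0 (by linarith)
  have h3 := psi_le (1 - a) (by linarith) (by linarith)
  linarith

theorem ch_comp : CH Om comp :=
  ch_reMap Om FF FF' FF'' contDiff_FF contDiff_FF' hasDerivAt_FF hasDerivAt_FF' sq_FF' comp_mem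

theorem comp_at_zero : comp 0 = 0 := by
  ext j
  fin_cases j
  · have := comp_zero 0
    simpa using this
  · have := comp_one 0
    simpa using this
  · have := comp_two 0
    simpa using this

theorem fderiv_comp_one : fderiv ℝ comp 0 (1 : ℂ) = (27 / 25 : ℝ) • EuclideanSpace.single (0 : Fin 3) (1 : ℝ) := by
  unfold comp
  rw [fderiv_reMap FF FF' contDiff_FF hasDerivAt_FF]
  ext j
  fin_cases j <;> simp [reMap, FF']

theorem fderiv_comp_I : fderiv ℝ comp 0 Complex.I = (27 / 25 : ℝ) • EuclideanSpace.single (1 : Fin 3) (1 : ℝ) := by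
  unfold comp
  rw [fderiv_reMap FF FF' contDiff_FF hasDerivAt_FF]
  ext j
  fin_cases j <;> simp [reMap, FF']

end

end Pool.Agent.Q166.Enn
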