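import Mathlib

/-!
# The strongly convex domain `x₀⁴ + x₁⁴ + (x₀² + x₁² + x₂²)/100 < 1`
-/

namespace Pool.Agent.Q166.Enn

noncomputable section

/-- Three dimensional space. -/
abbrev E3 : Type := EuclideanSpace ℝ (Fin 3)

/-- The defining function. -/
def rho (x : E3) : ℝ := x 0 ^ 4 + x 1 ^ 4 + (x 0 ^ 2 + x 1 ^ 2 + x 2 ^ 2) / 100 - 1

/-- The domain. -/
def Om : Set E3 := {x | x ∈ (Set.univ : Set E3) ∧ rho x < 0}

theorem contDiff_rho : ContDiff ℝ ((⊤ : ℕ∞) : WithTop ℕ∞) rho := by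
  unfold rho
  fun_prop

theorem continuous_rho : Continuous rho := contDiff_rho.continuous

theorem isOpen_Om : IsOpen Om := by
  have : Om = rho ⁻¹' (Set.Iio 0) := by
    ext x; simp [Om]
  rw [this]
  exact isOpen_Iio.preimage continuous_rho

theorem isBounded_Om : Bornology.IsBounded Om := by
  rw [isBounded_iff_forall_norm_le]
  refine ⟨10, fun x hx => ?_⟩
  have h : rho x < 0 := hx.2
  unfold rho at h
  have h1 : ‖x‖ ^ 2 = x 0 ^ 2 + x 1 ^ 2 + x 2 ^ 2 := by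
    rw [EuclideanSpace.norm_sq_eq, Fin.sum_univ_three]
    simp only [Real.norm_eq_abs, sq_abs]
  have h2 : ‖x‖ ^ 2 ≤ 10 ^ 2 := by
    rw [h1]
    nlinarith [pow_nonneg (sq_nonneg (x 0)) 2, pow_nonneg (sq_nonneg (x 1)) 2]
  exact (pow_le_pow_iff_left₀ (norm_nonneg _) (by norm_num) two_ne_zero).mp h2

theorem convexOn_coord_pow (i : Fin 3) (n : ℕ) (hn : Even n) :
    ConvexOn ℝ Set.univ (fun x : E3 => x i ^ n) := by
  refine ⟨convex_univ, fun x _ y _ a b ha hb hab => ?_⟩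
  have h := (hn.convexOn_pow (𝕜 := ℝ)).2 (Set.mem_univ (x i)) (Set.mem_univ (y i)) ha hb hab
  simpa using h

theorem convexOn_rho : ConvexOn ℝ Set.univ rho := by
  have e4 : Even 4 := by decide
  have e2 : Even 2 := by decide
  have h1 := (convexOn_coord_pow 0 4 e4).add (convexOn_coord_pow 1 4 e4)
  have h2 := ((convexOn_coord_pow 0 2 e2).add (convexOn_coord_pow 1 2 e2)).add
    (convexOn_coord_pow 2 2 e2)
  have h3 := h2.smul (show (0 : ℝ) ≤ 1 / 100 by norm_num)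
  have h4 := (h1.add h3).add (convexOn_const (-1 : ℝ) convex_univ)
  refine h4.congr (fun x _ => ?_)
  simp only [Pi.add_apply, smul_eq_mul, rho]
  ring

theorem convex_Om : Convex ℝ Om := convexOn_rho.convex_lt 0

theorem zero_mem_Om : (0 : E3) ∈ Om := by
  refine ⟨trivial, ?_⟩
  simp [rho]

theorem fderiv_rho_ne (x : E3) (hx : x ∈ frontier Om) : fderiv ℝ rho x ≠ 0 := by
  intro h0
  have hxO : x ∉ Om := by
    intro hmem
    have := isOpen_Om.frontier_eq ▸ hx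
    exact this.2 hmem
  have hx0 : x ≠ 0 := fun h => hxO (h ▸ zero_mem_Om)
  have hd : DifferentiableAt ℝ rho x := contDiff_rho.differentiable (by simp) x
  have h1 : HasDerivAt (fun t : ℝ => rho (t • x)) (fderiv ℝ rho x x) 1 := by
    have h2 : HasDerivAt (fun t : ℝ => t • x) x 1 := by
      simpa using (hasDerivAt_id (1 : ℝ)).smul_const x
    have h3 : HasFDerivAt rho (fderiv ℝ rho x) ((1 : ℝ) • x) := by
      rw [one_smul]; exact hd.hasFDerivAt
    exact h3.comp_hasDerivAt 1 h2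
  have h4 : HasDerivAt (fun t : ℝ => rho (t • x))
      (4 * (x 0 ^ 4 + x 1 ^ 4) + 2 * ((x 0 ^ 2 + x 1 ^ 2 + x 2 ^ 2) / 100)) 1 := by
    have h5 : (fun t : ℝ => rho (t • x)) = fun t : ℝ =>
        t ^ 4 * (x 0 ^ 4 + x 1 ^ 4) + t ^ 2 * ((x 0 ^ 2 + x 1 ^ 2 + x 2 ^ 2) / 100) - 1 := by
      funext t
      simp only [rho, PiLp.smul_apply, smul_eq_mul]
      ring
    rw [h5]
    have h6 := (((hasDerivAt_pow 4 (1 : ℝ)).mul_const (x 0 ^ 4 + x 1 ^ 4)).add
      ((hasDerivAt_pow 2 (1 : ℝ)).mul_const ((x 0 ^ 2 + x 1 ^ 2 + x 2 ^ 2) / 100))).sub_const 1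
    refine h6.congr_deriv ?_
    norm_num
  have h7 := h1.unique h4
  rw [h0] at h7
  simp only [zero_apply] at h7
  have h8 : ‖x‖ ^ 2 = x 0 ^ 2 + x 1 ^ 2 + x 2 ^ 2 := by
    rw [EuclideanSpace.norm_sq_eq, Fin.sum_univ_three]
    simp only [Real.norm_eq_abs, sq_abs]
  have h9 : 0 < ‖x‖ ^ 2 := by
    have := norm_pos_iff.mpr hx0
    positivity
  rw [h8] at h9
  nlinarith [pow_nonneg (sq_nonneg (x 0)) 2, pow_nonneg (sq_nonneg (x 1)) 2]

end

end Pool.Agent.Q166.Enn
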