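import Pool.Agent.Q166.Enn.Comp

/-!
# Planar extremal discs do not exist in the domain
-/

namespace Pool.Agent.Q166.Enn

open Complex Metric InnerProductSpace Topology

noncomputable section

/-- The reflection in the third coordinate. -/
def RR : E3 ≃ₗᵢ[ℝ] E3 :=
  LinearIsometryEquiv.piLpCongrRight 2
    (fun i : Fin 3 => if i = 2 then LinearIsometryEquiv.neg ℝ else LinearIsometryEquiv.refl ℝ ℝ)

theorem RR_apply (x : E3) (i : Fin 3) : RR x i = if i = 2 then -x i else x i := by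
  unfold RR
  rw [LinearIsometryEquiv.piLpCongrRight_apply]
  by_cases h : i = 2
  · simp [h]
  · simp [h]

theorem rho_RR (x : E3) : rho (RR x) = rho x := by
  unfold rho
  rw [RR_apply, RR_apply, RR_apply]
  simp

theorem fderiv_RR (f : ℂ → E3) (z w : ℂ) :
    fderiv ℝ (fun z => RR (f z)) z w = RR (fderiv ℝ f z w) := by
  have h := RR.toContinuousLinearEquiv.comp_fderiv (f := f) (x := z)
  exact DFunLike.congr_fun h w

theorem ch_RR {f : ℂ → E3} (hf : CH Om f) : CH Om (fun z => RR (f z)) := by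
  obtain ⟨h1, h2, h3, h4⟩ := hf
  refine ⟨?_, ?_, ?_, ?_⟩
  · exact RR.contDiff.comp_contDiffOn h1
  · intro z hz
    refine ⟨trivial, ?_⟩
    rw [rho_RR]
    exact (h2 z hz).2
  · intro z hz
    rw [fderiv_RR, fderiv_RR, RR.norm_map, RR.norm_map, RR.inner_map_map]
    exact h3 z hz
  · intro z hz
    have e1 : (fun w => fderiv ℝ (fun z => RR (f z)) w (1 : ℂ)) = fun w => RR (fderiv ℝ f w 1) := by
      funext w
      exact fderiv_RR f w 1
    have e2 : (fun w => fderiv ℝ (fun z => RR (f z)) w I) = fun w => RR (fderiv ℝ f w I) := by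
      funext w
      exact fderiv_RR f w I
    rw [e1, e2, fderiv_RR, fderiv_RR, ← map_add, h4 z hz, map_zero]

/-- The coordinates of a conformal harmonic map are harmonic functions. -/
theorem harmonicAt_coord {f : ℂ → E3} (hf : CH Om f) (j : Fin 3) (z : ℂ)
    (hz : z ∈ Metric.ball (0 : ℂ) 1) : HarmonicAt (fun w => f w j) z := by
  have hcd : ∀ w ∈ Metric.ball (0 : ℂ) 1, ContDiffAt ℝ 2 f w := fun w hw =>
    (hf.1 w hw).contDiffAt (isOpen_ball.mem_nhds hw)
  have hcdj : ∀ w ∈ Metric.ball (0 : ℂ) 1, ContDiffAt ℝ 2 (fun w => f w j) w := fun w hw =>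
    (EuclideanSpace.proj j : E3 →L[ℝ] ℝ).contDiff.contDiffAt.comp w (hcd w hw)
  refine ⟨hcdj z hz, ?_⟩
  filter_upwards [isOpen_ball.mem_nhds hz] with w hw
  rw [laplacian_eq_iteratedFDeriv_complexPlane]
  simp only [iteratedFDeriv_two_apply, Matrix.cons_val_zero, Matrix.cons_val_one,
    Pi.zero_apply]
  have hdiff : ∀ v : ℂ, DifferentiableAt ℝ (fun w => fderiv ℝ f w v) w := by
    intro v
    have h1 : DifferentiableAt ℝ (fderiv ℝ f) w :=
      ((hcd w hw).fderiv_right (m := 1) (by norm_num)).differentiableAt (by norm_num)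
    exact h1.clm_apply (differentiableAt_const v)
  have hdj : DifferentiableAt ℝ (fderiv ℝ (fun w => f w j)) w :=
    ((hcdj w hw).fderiv_right (m := 1) (by norm_num)).differentiableAt (by norm_num)
  have key : ∀ v : ℂ, fderiv ℝ (fderiv ℝ (fun w => f w j)) w v v
      = (fderiv ℝ (fun w => fderiv ℝ f w v) w v) j := by
    intro v
    have h2 : fderiv ℝ (fun w => fderiv ℝ (fun w => f w j) w v) w v
        = fderiv ℝ (fderiv ℝ (fun w => f w j)) w v v := by
      rw [fderiv_clm_apply hdj (differentiableAt_const v)]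
      simp
    rw [← h2, fderiv_coord (hdiff v)]
    have h3 : (fun w => fderiv ℝ (fun w => f w j) w v) =ᶠ[𝓝 w]
        (fun w => (fderiv ℝ f w v) j) := by
      filter_upwards [isOpen_ball.mem_nhds hw] with y hy
      rw [fderiv_coord ((hcd y hy).differentiableAt (by norm_num))]
    rw [h3.fderiv_eq]
  rw [key, key, ← PiLp.add_apply, hf.2.2.2 w hw]
  rfl

/-- A planar conformal harmonic disc centred at the origin with a positively oriented frame is
holomorphic, and its scaling is less than `27/25`. -/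
theorem no_flat {f : ℂ → E3} (hf : CH Om f) (hflat : ∀ z ∈ Metric.ball (0 : ℂ) 1, f z 2 = 0)
    (f0 : f 0 = 0) (r : ℝ) (hr : 27 / 25 ≤ r)
    (hx : fderiv ℝ f 0 (1 : ℂ) = r • EuclideanSpace.single (0 : Fin 3) (1 : ℝ))
    (hy : fderiv ℝ f 0 Complex.I = r • EuclideanSpace.single (1 : Fin 3) (1 : ℝ)) : False := by
  set U := Metric.ball (0 : ℂ) 1 with hU
  have hUo : IsOpen U := isOpen_ball
  have h0U : (0 : ℂ) ∈ U := by simp [hU]
  have hdiff : ∀ z ∈ U, DifferentiableAt ℝ f z := fun z hz =>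
    ((hf.1 z hz).contDiffAt (hUo.mem_nhds hz)).differentiableAt (by norm_num)
  set G : Fin 3 → ℂ → ℂ := fun j z =>
    (fderiv ℝ (fun w => f w j) z 1 : ℂ) - I * fderiv ℝ (fun w => f w j) z I with hG
  have hGan : ∀ j, AnalyticOnNhd ℂ (G j) U := fun j z hz =>
    HarmonicAt.analyticAt_complex_partial (harmonicAt_coord hf j z hz)
  have hGval : ∀ j, ∀ z ∈ U, G j z
      = (((fderiv ℝ f z 1) j : ℝ) : ℂ) - I * (((fderiv ℝ f z I) j : ℝ) : ℂ) := by
    intro j z hz
    rw [hG, fderiv_coord (hdiff z hz), fderiv_coord (hdiff z hz)]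
  have hthird : ∀ z ∈ U, ∀ v : ℂ, (fderiv ℝ f z v) 2 = 0 := by
    intro z hz v
    rw [fderiv_coord (hdiff z hz)]
    have h1 : (fun w => f w 2) =ᶠ[𝓝 z] fun _ => (0 : ℝ) := by
      filter_upwards [hUo.mem_nhds hz] with w hw
      exact hflat w hw
    rw [h1.fderiv_eq]
    simp
  have hprod : ∀ z ∈ U, (G 0 z + I * G 1 z) * (G 0 z - I * G 1 z) = 0 := by
    intro z hz
    obtain ⟨hn, hi⟩ := hf.2.2.1 z hz
    have hn2 : ‖fderiv ℝ f z (1 : ℂ)‖ ^ 2 = ‖fderiv ℝ f z I‖ ^ 2 := by rw [hn]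
    rw [EuclideanSpace.norm_sq_eq, EuclideanSpace.norm_sq_eq, Fin.sum_univ_three,
      Fin.sum_univ_three, hthird z hz, hthird z hz] at hn2
    rw [PiLp.inner_apply, Fin.sum_univ_three, hthird z hz, hthird z hz] at hi
    simp only [Real.norm_eq_abs, sq_abs, RCLike.inner_apply, conj_trivial, mul_zero,
      add_zero] at hn2 hi
    rw [hGval 0 z hz, hGval 1 z hz]
    have hn3 : (((fderiv ℝ f z 1) 0 : ℝ) : ℂ) ^ 2 + (((fderiv ℝ f z 1) 1 : ℝ) : ℂ) ^ 2
        = (((fderiv ℝ f z I) 0 : ℝ) : ℂ) ^ 2 + (((fderiv ℝ f z I) 1 : ℝ) : ℂ) ^ 2 := by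
      have : (fderiv ℝ f z 1) 0 ^ 2 + (fderiv ℝ f z 1) 1 ^ 2
        = (fderiv ℝ f z I) 0 ^ 2 + (fderiv ℝ f z I) 1 ^ 2 := by linarith
      exact_mod_cast congrArg (fun t : ℝ => (t : ℂ)) this
    have hi3 : (((fderiv ℝ f z I) 0 : ℝ) : ℂ) * (((fderiv ℝ f z 1) 0 : ℝ) : ℂ)
        + (((fderiv ℝ f z I) 1 : ℝ) : ℂ) * (((fderiv ℝ f z 1) 1 : ℝ) : ℂ) = 0 := by
      exact_mod_cast congrArg (fun t : ℝ => (t : ℂ)) hi
    linear_combination hn3 - 2 * I * hi3 + ((((fderiv ℝ f z I) 0 : ℝ) : ℂ) ^ 2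
      + (((fderiv ℝ f z I) 1 : ℝ) : ℂ) ^ 2
      - ((((fderiv ℝ f z 1) 1 : ℝ) : ℂ) - I * (((fderiv ℝ f z I) 1 : ℝ) : ℂ)) ^ 2) * Complex.I_sq
  have hA : AnalyticOnNhd ℂ (fun z => G 0 z + I * G 1 z) U := fun z hz =>
    (hGan 0 z hz).add (analyticAt_const.mul (hGan 1 z hz))
  have hB : AnalyticOnNhd ℂ (fun z => G 0 z - I * G 1 z) U := fun z hz =>
    (hGan 0 z hz).sub (analyticAt_const.mul (hGan 1 z hz))
  have hrpos : 0 < r := by linarith
  have hB0 : ∀ z ∈ U, G 0 z - I * G 1 z = 0 := by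
    rcases AnalyticOnNhd.eq_zero_or_eq_zero_of_mul_eq_zero hA hB hprod
      (convex_ball (0 : ℂ) 1).isPreconnected with h | h
    · exfalso
      have h1 := h 0 h0U
      rw [hGval 0 0 h0U, hGval 1 0 h0U, hx, hy] at h1
      simp only [PiLp.smul_apply, PiLp.single_apply, smul_eq_mul] at h1
      simp at h1
      have h2 : ((2 * r : ℝ) : ℂ) = 0 := by
        push_cast
        linear_combination h1 + r * Complex.I_sq
      have h3 : 2 * r = 0 := by exact_mod_cast h2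
      linarith
    · exact h
  -- Cauchy-Riemann equations
  have hCR : ∀ z ∈ U, (fderiv ℝ f z 1) 0 = (fderiv ℝ f z I) 1 ∧
      (fderiv ℝ f z I) 0 = - (fderiv ℝ f z 1) 1 := by
    intro z hz
    have h1 := hB0 z hz
    rw [hGval 0 z hz, hGval 1 z hz] at h1
    have hre := congrArg Complex.re h1
    have him := congrArg Complex.im h1
    simp at hre him
    constructor <;> linarith
  -- the holomorphic function
  set h : ℂ → ℂ := fun z => ((f z 0 : ℝ) : ℂ) + I * ((f z 1 : ℝ) : ℂ) with hh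
  have hhd : ∀ z ∈ U, HasFDerivAt h
      (Complex.ofRealCLM.comp ((EuclideanSpace.proj 0 : E3 →L[ℝ] ℝ).comp (fderiv ℝ f z))
        + I • Complex.ofRealCLM.comp ((EuclideanSpace.proj 1 : E3 →L[ℝ] ℝ).comp (fderiv ℝ f z)))
      z := by
    intro z hz
    have h1 : HasFDerivAt (fun z => ((f z 0 : ℝ) : ℂ))
        (Complex.ofRealCLM.comp ((EuclideanSpace.proj 0 : E3 →L[ℝ] ℝ).comp (fderiv ℝ f z))) z :=
      Complex.ofRealCLM.hasFDerivAt.comp z
        ((EuclideanSpace.proj 0 : E3 →L[ℝ] ℝ).hasFDerivAt.comp z (hdiff z hz).hasFDerivAt)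
    have h2 : HasFDerivAt (fun z => ((f z 1 : ℝ) : ℂ))
        (Complex.ofRealCLM.comp ((EuclideanSpace.proj 1 : E3 →L[ℝ] ℝ).comp (fderiv ℝ f z))) z :=
      Complex.ofRealCLM.hasFDerivAt.comp z
        ((EuclideanSpace.proj 1 : E3 →L[ℝ] ℝ).hasFDerivAt.comp z (hdiff z hz).hasFDerivAt)
    exact h1.add (h2.const_mul I)
  have hhol : ∀ z ∈ U, DifferentiableAt ℂ h z := by
    intro z hz
    rw [differentiableAt_complex_iff_differentiableAt_real]
    refine ⟨(hhd z hz).differentiableAt, ?_⟩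
    rw [(hhd z hz).fderiv]
    obtain ⟨c1, c2⟩ := hCR z hz
    have e1 : ∀ v : ℂ, (Complex.ofRealCLM.comp ((EuclideanSpace.proj 0 : E3 →L[ℝ] ℝ).comp (fderiv ℝ f z))
        + I • Complex.ofRealCLM.comp ((EuclideanSpace.proj 1 : E3 →L[ℝ] ℝ).comp (fderiv ℝ f z))) v
        = (((fderiv ℝ f z v) 0 : ℝ) : ℂ) + I * (((fderiv ℝ f z v) 1 : ℝ) : ℂ) := fun v => rfl
    rw [e1, e1, c1, c2, smul_eq_mul]
    push_cast
    linear_combination (-((fderiv ℝ f z 1) 1 : ℂ)) * Complex.I_sq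
  have hder0 : HasDerivAt h (r : ℂ) 0 := by
    have h1 := (hhol 0 h0U).hasDerivAt
    have h2 : deriv h 0 = (r : ℂ) := by
      have h3 := h1.hasFDerivAt.restrictScalars ℝ
      have h4 := h3.unique (hhd 0 h0U)
      have h5 := DFunLike.congr_fun h4 (1 : ℂ)
      have e1 : (Complex.ofRealCLM.comp ((EuclideanSpace.proj 0 : E3 →L[ℝ] ℝ).comp (fderiv ℝ f 0))
        + I • Complex.ofRealCLM.comp ((EuclideanSpace.proj 1 : E3 →L[ℝ] ℝ).comp (fderiv ℝ f 0))) 1
        = (((fderiv ℝ f 0 1) 0 : ℝ) : ℂ) + I * (((fderiv ℝ f 0 1) 1 : ℝ) : ℂ) := rfl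
      rw [e1, hx] at h5
      simp at h5
      exact h5
    rwa [h2] at h1
  have hh0 : h 0 = 0 := by
    simp [hh, f0]
  set k : ℂ → ℂ := dslope h 0 with hk
  have hk0 : k 0 = (r : ℂ) := by
    rw [hk, dslope_same]
    exact hder0.deriv
  have hkh : ∀ z, h z = z * k z := by
    intro z
    have := sub_smul_dslope h 0 z
    rw [hh0, sub_zero, sub_zero, smul_eq_mul] at this
    exact this.symm
  have hkd : DifferentiableOn ℂ k U := by
    rw [hk, Complex.differentiableOn_dslope (hUo.mem_nhds h0U)]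
    exact fun z hz => (hhol z hz).differentiableWithinAt
  have hhd' : DifferentiableOn ℂ h U := fun z hz => (hhol z hz).differentiableWithinAt
  set ρ : ℝ := 999 / 1000 with hρ
  set F : ℂ → ℂ := fun z => ((3 / 4 * ρ ^ 4 : ℝ) : ℂ) * k z ^ 4 + (1 / 4 : ℂ) * h z ^ 4 with hF
  have hFd : DifferentiableOn ℂ F U :=
    ((hkd.pow 4).const_mul _).add ((hhd'.pow 4).const_mul _)
  have hsub : closure (Metric.ball (0 : ℂ) ρ) ⊆ U := by
    refine closure_ball_subset_closedBall.trans ?_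
    apply closedBall_subset_ball
    rw [hρ]; norm_num
  have hEd : DiffContOnCl ℂ (fun z => Complex.exp (F z)) (Metric.ball (0 : ℂ) ρ) :=
    (hFd.cexp.mono hsub).diffContOnCl
  have hbound : ∀ z ∈ frontier (Metric.ball (0 : ℂ) ρ), ‖Complex.exp (F z)‖ ≤ Real.exp 1 := by
    intro z hz
    have hzU : z ∈ U := hsub (frontier_subset_closure hz)
    have hρne : ρ ≠ 0 := by rw [hρ]; norm_num
    rw [frontier_ball _ hρne, mem_sphere_zero_iff_norm] at hz
    rw [Complex.norm_exp]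
    apply Real.exp_le_exp.mpr
    have hre : (F z).re = 3 / 4 * ρ ^ 4 * (k z ^ 4).re + 1 / 4 * (h z ^ 4).re := by
      rw [hF]
      simp only [Complex.add_re, Complex.re_ofReal_mul]
      congr 1
      have : (1 / 4 : ℂ) = ((1 / 4 : ℝ) : ℂ) := by push_cast; rfl
      rw [this, Complex.re_ofReal_mul]
    have h1 : (k z ^ 4).re ≤ ‖k z‖ ^ 4 := by
      rw [← norm_pow]
      exact Complex.re_le_norm _
    have h2 : ‖h z‖ = ρ * ‖k z‖ := by
      rw [hkh, norm_mul, hz]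
    have h3 : 3 / 4 * ρ ^ 4 * (k z ^ 4).re ≤ 3 / 4 * ‖h z‖ ^ 4 := by
      rw [h2, mul_pow]
      have : 0 ≤ 3 / 4 * ρ ^ 4 := by positivity
      nlinarith [mul_le_mul_of_nonneg_left h1 this]
    have h4 : 3 / 4 * ‖h z‖ ^ 4 + 1 / 4 * (h z ^ 4).re = f z 0 ^ 4 + f z 1 ^ 4 := by
      have e1 : (h z).re = f z 0 := by simp [hh]
      have e2 : (h z).im = f z 1 := by simp [hh]
      have e3 : ‖h z‖ ^ 2 = f z 0 ^ 2 + f z 1 ^ 2 := by
        rw [← Complex.normSq_eq_norm_sq, Complex.normSq_apply, e1, e2]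
        ring
      have e4 : ‖h z‖ ^ 4 = (f z 0 ^ 2 + f z 1 ^ 2) ^ 2 := by
        rw [← e3]; ring
      have e5 : (h z ^ 4).re = f z 0 ^ 4 - 6 * f z 0 ^ 2 * f z 1 ^ 2 + f z 1 ^ 4 := by
        simp only [pow_succ, pow_zero, one_mul, Complex.mul_re, Complex.mul_im, e1, e2]
        ring
      rw [e4, e5]
      ring
    have h5 := (hf.2.1 z hzU).2
    unfold rho at h5
    rw [hre]
    nlinarith [sq_nonneg (f z 0), sq_nonneg (f z 1), sq_nonneg (f z 2)]
  have hfin := Complex.norm_le_of_forall_mem_frontier_norm_le Metric.isBounded_ball hEd hbound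
    (subset_closure (Metric.mem_ball_self (by rw [hρ]; norm_num)))
  rw [Complex.norm_exp] at hfin
  have hfin2 : (F 0).re ≤ 1 := Real.exp_le_exp.mp hfin
  have hF0 : (F 0).re = 3 / 4 * ρ ^ 4 * r ^ 4 := by
    rw [hF]
    simp only
    rw [hk0, hh0]
    have : ((3 / 4 * ρ ^ 4 : ℝ) : ℂ) * (r : ℂ) ^ 4 + (1 / 4 : ℂ) * 0 ^ 4
        = ((3 / 4 * ρ ^ 4 * r ^ 4 : ℝ) : ℂ) := by
      push_cast
      ring
    rw [this, Complex.ofReal_re]
  rw [hF0, hρ] at hfin2
  have hr4 : (27 / 25 : ℝ) ^ 4 ≤ r ^ 4 := pow_le_pow_left₀ (by norm_num) hr 4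
  norm_num at hfin2 hr4
  linarith

end

end Pool.Agent.Q166.Enn
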